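import Pool.Agent.Helper44.GN.Defs

open Finset MeasureTheory Filter Topology Matrix
open scoped ENNReal ContDiff

namespace Pool.Agent.Helper44.GN

open Pool.Agent.Helper44.GF

/-- The bound for `G 1`. -/
theorem av1_one (h1 : ST_YD) (α a δ : ℝ) (G L : ℝ → ℝ) (hPm : Pm α a δ)
    (hG : ∀ z ∈ Set.Icc δ 1, HasDerivAt G (-(4 / α * ss α a z / z * L z * G z)) z)
    (hG0 : ∀ z ∈ Set.Icc δ 1, 0 ≤ G z) (hL3 : ∀ z ∈ Set.Icc δ 1, -3 ≤ L z) :
    G 1 ≤ 10 * ∫ z in δ..1, z ^ 3 * G z := by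
  obtain ⟨hal, hau, ha0, ha1, hd0, hd1⟩ := hPm
  have hα0 : 0 < α := by linarith
  have hYD := h1 α a hal hau ha0
  have hb5 : 4 / α ≤ 5 := by rw [div_le_iff₀ hα0]; linarith
  have hb0 : 0 ≤ 4 / α := by positivity
  have hsub : Set.Icc (1 / 2 : ℝ) 1 ⊆ Set.Icc δ 1 := Set.Icc_subset_Icc hd1 le_rfl
  have hpos : ∀ z ∈ Set.Icc δ 1, 0 < z := fun z hz => lt_of_lt_of_le hd0 hz.1
  have hGc : ContinuousOn G (Set.Icc δ 1) :=
    fun z hz => (hG z hz).continuousAt.continuousWithinAt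
  have hcK : ContinuousOn (fun z => G z / z) (Set.Icc (1 / 2 : ℝ) 1) :=
    (hGc.mono hsub).div continuousOn_id (fun z hz => (hpos z (hsub hz)).ne')
  have hK : ∀ z ∈ Set.Icc (1 / 2 : ℝ) 1, HasDerivAt (fun z => G z / z)
      (((-(4 / α * ss α a z / z * L z * G z)) * z - G z * 1) / z ^ 2) z := by
    intro z hz
    exact (hG z (hsub hz)).div (hasDerivAt_id z) (hpos z (hsub hz)).ne'
  have hanti : AntitoneOn (fun z => G z / z) (Set.Icc (1 / 2 : ℝ) 1) := by
    apply antitoneOn_of_deriv_nonpos (convex_Icc _ _) hcK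
    · intro z hz
      rw [interior_Icc] at hz
      exact (hK z (Set.Ioo_subset_Icc_self hz)).differentiableAt.differentiableWithinAt
    · intro z hz
      rw [interior_Icc] at hz
      have hz' := Set.Ioo_subset_Icc_self hz
      rw [(hK z hz').deriv]
      have hz0 := hpos z (hsub hz')
      have hG1 := hG0 z (hsub hz')
      have hL := hL3 z (hsub hz')
      have hs := hYD z hz0
      have hs0 : 0 < ss α a z := hs.2.1
      have hs17 : ss α a z ≤ 17 * a := hs.2.2.2.2.2.1 hz'.1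
      have e1 : (-(4 / α * ss α a z / z * L z * G z)) * z - G z * 1 =
          G z * (4 / α * ss α a z * (-L z) - 1) := by
        field_simp
      rw [e1]
      apply div_nonpos_of_nonpos_of_nonneg _ (by positivity)
      apply mul_nonpos_of_nonneg_of_nonpos hG1
      have e2 : 4 / α * ss α a z ≤ 5 * (17 * a) := mul_le_mul hb5 hs17 hs0.le (by norm_num)
      have e3 : 0 ≤ 4 / α * ss α a z := by positivity
      have e4 : 4 / α * ss α a z * (-L z) ≤ 4 / α * ss α a z * 3 :=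
        mul_le_mul_of_nonneg_left (by linarith) e3
      linarith
  have hlow : ∀ z ∈ Set.Icc (1 / 2 : ℝ) 1, z * G 1 ≤ G z := by
    intro z hz
    have e1 := hanti hz (Set.right_mem_Icc.2 (by norm_num)) hz.2
    have hz0 := hpos z (hsub hz)
    change G 1 / 1 ≤ G z / z at e1
    rw [div_one, le_div_iff₀ hz0] at e1
    linarith
  have hcI : ContinuousOn (fun z => z ^ 3 * G z) (Set.Icc δ 1) :=
    (continuousOn_id.pow 3).mul hGc
  have i1 : IntervalIntegrable (fun z => z ^ 3 * G z) volume δ (1 / 2) :=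
    (hcI.mono (Set.Icc_subset_Icc le_rfl (by norm_num))).intervalIntegrable_of_Icc hd1
  have i2 : IntervalIntegrable (fun z => z ^ 3 * G z) volume (1 / 2) 1 :=
    (hcI.mono hsub).intervalIntegrable_of_Icc (by norm_num)
  have hsplit := intervalIntegral.integral_add_adjacent_intervals i1 i2
  have hn1 : 0 ≤ ∫ z in δ..(1 / 2), z ^ 3 * G z := by
    apply intervalIntegral.integral_nonneg hd1
    intro z hz
    have hz' : z ∈ Set.Icc δ 1 := ⟨hz.1, by linarith [hz.2]⟩
    have := hpos z hz'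
    have := hG0 z hz'
    positivity
  have hn2 : ∫ z in (1 / 2 : ℝ)..1, z ^ 4 * G 1 ≤ ∫ z in (1 / 2 : ℝ)..1, z ^ 3 * G z := by
    apply intervalIntegral.integral_mono_on (by norm_num)
      (Continuous.intervalIntegrable (by fun_prop) _ _) i2
    intro z hz
    have hz0 := hpos z (hsub hz)
    have e1 : z ^ 4 * G 1 = z ^ 3 * (z * G 1) := by ring
    rw [e1]
    exact mul_le_mul_of_nonneg_left (hlow z hz) (by positivity)
  have hval : ∫ z in (1 / 2 : ℝ)..1, z ^ 4 * G 1 = 31 / 160 * G 1 := by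
    rw [intervalIntegral.integral_mul_const, integral_pow]
    norm_num
  have hG11 : 0 ≤ G 1 := hG0 1 ⟨by linarith, le_rfl⟩
  rw [← hsplit]
  rw [hval] at hn2
  linarith

theorem st_AV1 (h1 : ST_YD) : ST_AV1 := by
  intro α a δ ϑ G L P hPm hϑ hϑ1 hG hG0 hP0 hL3 hLP hLc hPc
  have hone := av1_one h1 α a δ G L hPm hG hG0 hL3
  obtain ⟨hal, hau, ha0, ha1, hd0, hd1⟩ := hPm
  have hα0 : 0 < α := by linarith
  have hYD := h1 α a hal hau ha0
  have hδ1 : δ ≤ 1 := by linarith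
  have hb4 : 4 ≤ 4 / α := by rw [le_div_iff₀ hα0]; linarith
  have hbα : 4 / α - 4 = 4 / α * (1 - α) := by field_simp
  have hpos : ∀ z ∈ Set.Icc δ 1, 0 < z := fun z hz => lt_of_lt_of_le hd0 hz.1
  have hsc : ContinuousOn (ss α a) (Set.Icc δ 1) :=
    fun z hz => ((hYD z (hpos z hz)).2.2.2.2.1).continuousAt.continuousWithinAt
  have hGc : ContinuousOn G (Set.Icc δ 1) :=
    fun z hz => (hG z hz).continuousAt.continuousWithinAt
  have hΦ : ∀ z ∈ Set.uIcc δ 1, HasDerivAt (fun z => z ^ 4 * (ss α a z * G z))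
      ((4 - 4 / α) * (z ^ 3 * (ss α a z * G z)) +
        4 / α * (z ^ 3 * (ss α a z ^ 2 * (1 - L z) * G z))) z := by
    intro z hz
    rw [Set.uIcc_of_le hδ1] at hz
    have hz0 := hpos z hz
    have e1 := (hasDerivAt_pow 4 z).mul (((hYD z hz0).2.2.2.2.1).mul (hG z hz))
    refine e1.congr_deriv ?_
    simp only [Pi.mul_apply]
    field_simp
    ring
  have c1 : ContinuousOn (fun z => z ^ 3 * (ss α a z * G z)) (Set.Icc δ 1) :=
    (continuousOn_id.pow 3).mul (hsc.mul hGc)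
  have c2 : ContinuousOn (fun z => z ^ 3 * (ss α a z ^ 2 * (1 - L z) * G z)) (Set.Icc δ 1) :=
    (continuousOn_id.pow 3).mul (((hsc.pow 2).mul (continuousOn_const.sub hLc)).mul hGc)
  have c3 : ContinuousOn (fun z => z ^ 3 * (ss α a z ^ 2 * P z * G z)) (Set.Icc δ 1) :=
    (continuousOn_id.pow 3).mul (((hsc.pow 2).mul hPc).mul hGc)
  have c4 : ContinuousOn (fun z => z ^ 3 * G z) (Set.Icc δ 1) :=
    (continuousOn_id.pow 3).mul hGc
  have i1 : IntervalIntegrable (fun z => z ^ 3 * (ss α a z * G z)) volume δ 1 :=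
    c1.intervalIntegrable_of_Icc hδ1
  have i2 : IntervalIntegrable (fun z => z ^ 3 * (ss α a z ^ 2 * (1 - L z) * G z)) volume δ 1 :=
    c2.intervalIntegrable_of_Icc hδ1
  have i3 : IntervalIntegrable (fun z => z ^ 3 * (ss α a z ^ 2 * P z * G z)) volume δ 1 :=
    c3.intervalIntegrable_of_Icc hδ1
  have i4 : IntervalIntegrable (fun z => z ^ 3 * G z) volume δ 1 :=
    c4.intervalIntegrable_of_Icc hδ1
  have hftc := intervalIntegral.integral_eq_sub_of_hasDerivAt hΦ
    ((i1.const_mul (4 - 4 / α)).add (i2.const_mul (4 / α)))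
  rw [intervalIntegral.integral_add (i1.const_mul (4 - 4 / α)) (i2.const_mul (4 / α)),
    intervalIntegral.integral_const_mul, intervalIntegral.integral_const_mul] at hftc
  -- the comparisons
  have k1 : ∫ z in δ..1, z ^ 3 * (ss α a z * G z) ≤ ∫ z in δ..1, z ^ 3 * G z := by
    apply intervalIntegral.integral_mono_on hδ1 i1 i4
    intro z hz
    have hz0 := hpos z hz
    have hg := hG0 z hz
    have hs1 : ss α a z ≤ 1 := (hYD z hz0).2.2.1.le
    apply mul_le_mul_of_nonneg_left _ (by positivity)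
    nlinarith
  have k2 : ϑ * ∫ z in δ..1, z ^ 3 * (ss α a z ^ 2 * P z * G z) ≤
      ∫ z in δ..1, z ^ 3 * (ss α a z ^ 2 * (1 - L z) * G z) := by
    rw [← intervalIntegral.integral_const_mul]
    apply intervalIntegral.integral_mono_on hδ1 (i3.const_mul ϑ) i2
    intro z hz
    have hz0 := hpos z hz
    have hg := hG0 z hz
    have e1 : ϑ * (z ^ 3 * (ss α a z ^ 2 * P z * G z)) =
        (z ^ 3 * ss α a z ^ 2 * G z) * (ϑ * P z) := by ring
    have e2 : z ^ 3 * (ss α a z ^ 2 * (1 - L z) * G z) =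
        (z ^ 3 * ss α a z ^ 2 * G z) * (1 - L z) := by ring
    rw [e1, e2]
    apply mul_le_mul_of_nonneg_left _ (by positivity)
    linarith [hLP z hz]
  have hΦδ : 0 ≤ δ ^ 4 * (ss α a δ * G δ) := by
    have hδ : δ ∈ Set.Icc δ 1 := ⟨le_rfl, hδ1⟩
    have := hG0 δ hδ
    have := (hYD δ hd0).2.1
    positivity
  have hG11 : 0 ≤ G 1 := hG0 1 ⟨hδ1, le_rfl⟩
  have hΦ1 : (1 : ℝ) ^ 4 * (ss α a 1 * G 1) ≤ a * G 1 := by
    have hs := (hYD 1 one_pos).2.2.2.2.2.2
    rw [one_pow, one_mul]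
    exact mul_le_mul_of_nonneg_right hs hG11
  set I := ∫ z in δ..1, z ^ 3 * G z with hI
  set J1 := ∫ z in δ..1, z ^ 3 * (ss α a z * G z) with hJ1
  set J2 := ∫ z in δ..1, z ^ 3 * (ss α a z ^ 2 * (1 - L z) * G z) with hJ2
  set J := ∫ z in δ..1, z ^ 3 * (ss α a z ^ 2 * P z * G z) with hJ
  have hI0 : 0 ≤ I := by linarith
  have hb0 : 0 < 4 / α := by positivity
  have m1 : 4 / α * J2 ≤ a * G 1 + 4 / α * (1 - α) * J1 := by
    have : 4 / α * J2 = (1 : ℝ) ^ 4 * (ss α a 1 * G 1) - δ ^ 4 * (ss α a δ * G δ) +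
        (4 / α - 4) * J1 := by linarith
    rw [this, hbα]
    linarith
  have m2 : 4 / α * (1 - α) * J1 ≤ 4 / α * (1 - α) * I :=
    mul_le_mul_of_nonneg_left k1 (mul_nonneg hb0.le (by linarith))
  have m3 : a * G 1 ≤ 4 / α * (5 / 2 * a * I) := by
    have e1 : a * G 1 ≤ a * (10 * I) := mul_le_mul_of_nonneg_left hone ha0.le
    have e2 : 4 * (5 / 2 * a * I) ≤ 4 / α * (5 / 2 * a * I) :=
      mul_le_mul_of_nonneg_right hb4 (by positivity)
    linarith
  have m4 : 4 / α * J2 ≤ 4 / α * ((1 - α) * I + 5 / 2 * a * I) := by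
    have : 4 / α * ((1 - α) * I + 5 / 2 * a * I) =
      4 / α * (1 - α) * I + 4 / α * (5 / 2 * a * I) := by ring
    rw [this]
    linarith
  have m5 : J2 ≤ (1 - α) * I + 5 / 2 * a * I := le_of_mul_le_mul_left m4 hb0
  have m6 : 1 / (2 * ϑ) * (2 * (1 - α) + 5 * a) * I =
      ((1 - α) * I + 5 / 2 * a * I) / ϑ := by
    field_simp
  rw [m6, le_div_iff₀ hϑ]
  linarith

end Pool.Agent.Helper44.GN
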